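import Pool.Agent.Y229.MS.Stm

/-!
# Project MS, piece GK: the automorphism for graphs
-/

set_option autoImplicit false

namespace Pool.Agent.Y925.MS

open MvPolynomial Pool.Agent.Y229.MS

section
variable {K : Type} [Field K] {n κ : ℕ}

/-- the variable `x_i` -/
def xv (κ : ℕ) (i : Fin n) : Fin (n + (κ + κ)) := Fin.castAdd (κ + κ) i
/-- the variable `y_i` -/
def yv (n : ℕ) (i : Fin κ) : Fin (n + (κ + κ)) := Fin.natAdd n (Fin.castAdd κ i)
/-- the variable `z_i` -/
def zv (n : ℕ) (i : Fin κ) : Fin (n + (κ + κ)) := Fin.natAdd n (Fin.natAdd κ i)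
/-- the variables `x, z` -/
def emb : Fin (n + κ) → Fin (n + (κ + κ)) :=
  Fin.addCases (Fin.castAdd (κ + κ)) fun i => Fin.natAdd n (Fin.natAdd κ i)

theorem emb_l (i : Fin n) : emb (κ := κ) (Fin.castAdd κ i) = xv κ i := by
  unfold emb xv
  rw [Fin.addCases_left]

theorem emb_r (i : Fin κ) : emb (n := n) (Fin.natAdd n i) = zv n i := by
  unfold emb zv
  rw [Fin.addCases_right]

/-- substitution -/
noncomputable def sub3 (a : Fin n → MvPolynomial (Fin (n + (κ + κ))) K)
    (b c : Fin κ → MvPolynomial (Fin (n + (κ + κ))) K) :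
    MvPolynomial (Fin (n + (κ + κ))) K →ₐ[K] MvPolynomial (Fin (n + (κ + κ))) K :=
  aeval (Fin.append a (Fin.append b c))

theorem sub3_x (a : Fin n → MvPolynomial (Fin (n + (κ + κ))) K)
    (b c : Fin κ → MvPolynomial (Fin (n + (κ + κ))) K) (i : Fin n) :
    sub3 a b c (X (xv κ i)) = a i := by
  unfold sub3 xv
  rw [aeval_X, Fin.append_left]

theorem sub3_y (a : Fin n → MvPolynomial (Fin (n + (κ + κ))) K)
    (b c : Fin κ → MvPolynomial (Fin (n + (κ + κ))) K) (i : Fin κ) :
    sub3 a b c (X (yv n i)) = b i := by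
  unfold sub3 yv
  rw [aeval_X, Fin.append_right, Fin.append_left]

theorem sub3_z (a : Fin n → MvPolynomial (Fin (n + (κ + κ))) K)
    (b c : Fin κ → MvPolynomial (Fin (n + (κ + κ))) K) (i : Fin κ) :
    sub3 a b c (X (zv n i)) = c i := by
  unfold sub3 zv
  rw [aeval_X, Fin.append_right, Fin.append_right]

theorem all3 {Q : Fin (n + (κ + κ)) → Prop} (h1 : ∀ i, Q (xv κ i)) (h2 : ∀ i, Q (yv n i))
    (h3 : ∀ i, Q (zv n i)) (i) : Q i :=
  Fin.addCases (fun i => h1 i) (fun i => Fin.addCases (fun i => h2 i) (fun i => h3 i) i) i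

theorem ext3 {φ φ' : MvPolynomial (Fin (n + (κ + κ))) K →ₐ[K] MvPolynomial (Fin (n + (κ + κ))) K}
    (h1 : ∀ i, φ (X (xv κ i)) = φ' (X (xv κ i))) (h2 : ∀ i, φ (X (yv n i)) = φ' (X (yv n i)))
    (h3 : ∀ i, φ (X (zv n i)) = φ' (X (zv n i))) : φ = φ' := by
  apply MvPolynomial.algHom_ext
  exact all3 h1 h2 h3

/-- an algebra homomorphism fixing some variables fixes the polynomials in these variables -/
theorem fix_rename {m : ℕ} (e : Fin m → Fin (n + (κ + κ)))
    (φ : MvPolynomial (Fin (n + (κ + κ))) K →ₐ[K] MvPolynomial (Fin (n + (κ + κ))) K)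
    (h : ∀ i, φ (X (e i)) = X (e i)) (g : MvPolynomial (Fin m) K) :
    φ (rename e g) = rename e g := by
  have h1 : φ.comp (rename e) = rename e := by
    apply MvPolynomial.algHom_ext
    intro i
    rw [AlgHom.comp_apply, rename_X, h]
  exact DFunLike.congr_fun h1 g

/-- expansion in the last variables -/
theorem expand (G : MvPolynomial (Fin (n + κ)) K) :
    ∃ r : Fin κ → MvPolynomial (Fin (n + κ)) K,
      G = rename (Fin.castAdd κ) (aeval (Fin.append (X : Fin n → MvPolynomial (Fin n) K)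
        (fun _ : Fin κ => 0)) G) + ∑ i, X (Fin.natAdd n i) * r i := by
  classical
  induction G using MvPolynomial.induction_on with
  | C a =>
    refine ⟨fun _ => 0, ?_⟩
    rw [algHom_C, algebraMap_eq, rename_C]
    simp
  | add p q hp hq =>
    obtain ⟨r, hr⟩ := hp
    obtain ⟨s, hs⟩ := hq
    refine ⟨fun i => r i + s i, ?_⟩
    have e : ∑ i, X (Fin.natAdd n i) * (r i + s i) =
        ∑ i, X (Fin.natAdd n i) * r i + ∑ i, X (Fin.natAdd n i) * s i := by
      rw [← Finset.sum_add_distrib]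
      exact Finset.sum_congr rfl fun i _ => mul_add _ _ _
    rw [e, map_add, map_add]
    conv_lhs => rw [hr, hs]
    ring
  | mul_X p j hp =>
    obtain ⟨r, hr⟩ := hp
    refine Fin.addCases (fun i => ?_) (fun i => ?_) j
    · refine ⟨fun k => r k * X (Fin.castAdd κ i), ?_⟩
      rw [map_mul, map_mul, aeval_X, Fin.append_left, rename_X]
      have e : ∑ k, X (Fin.natAdd n k) * (r k * X (Fin.castAdd κ i)) =
          (∑ k, X (Fin.natAdd n k) * r k) * X (Fin.castAdd κ i) := by
        rw [Finset.sum_mul]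
        exact Finset.sum_congr rfl fun k _ => (mul_assoc _ _ _).symm
      rw [e, ← add_mul, ← hr]
    · refine ⟨fun k => if k = i then p else 0, ?_⟩
      rw [map_mul, map_mul, aeval_X, Fin.append_right, map_zero, mul_zero, zero_add]
      simp only [mul_ite, mul_zero, Finset.sum_ite_eq', Finset.mem_univ, if_true]
      rw [mul_comm]

end

theorem gk : Pool.Agent.Y229.MS.TaskGK := by
  intro K _ n κ c hc p Φ
  -- the polynomial in the variables `z = c z' - p`
  obtain ⟨G, hG⟩ : ∃ G : MvPolynomial (Fin (n + κ)) K,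
      G = aeval (Fin.append (fun i => X (Fin.castAdd κ i))
        (fun i => C (c i)⁻¹ * (X (Fin.natAdd n i) + rename (Fin.castAdd κ) (p i)))) Φ := ⟨_, rfl⟩
  obtain ⟨r, hr⟩ := expand G
  have hG0 : aeval (Fin.append (X : Fin n → MvPolynomial (Fin n) K) (fun _ : Fin κ => 0)) G =
      aeval (Fin.append X fun i => C (c i)⁻¹ * p i) Φ := by
    rw [hG]
    have h1 : ((aeval (Fin.append (X : Fin n → MvPolynomial (Fin n) K)
        (fun _ : Fin κ => 0))).comp (aeval (Fin.append (fun i => X (Fin.castAdd κ i))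
        (fun i => C (c i)⁻¹ * (X (Fin.natAdd n i) + rename (Fin.castAdd κ) (p i))))) :
          MvPolynomial (Fin (n + κ)) K →ₐ[K] MvPolynomial (Fin n) K) =
        aeval (Fin.append X fun i => C (c i)⁻¹ * p i) := by
      apply MvPolynomial.algHom_ext
      refine Fin.addCases (fun i => ?_) (fun i => ?_)
      · rw [AlgHom.comp_apply, aeval_X, aeval_X, Fin.append_left, Fin.append_left, aeval_X,
          Fin.append_left]
      · rw [AlgHom.comp_apply, aeval_X, aeval_X, Fin.append_right, Fin.append_right, map_mul,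
          map_add, aeval_X, Fin.append_right, zero_add, algHom_C, algebraMap_eq, aeval_rename]
        congr 1
        have h2 : (Fin.append (X : Fin n → MvPolynomial (Fin n) K) (fun _ : Fin κ => 0)) ∘
            Fin.castAdd κ = X := by
          funext k
          rw [Function.comp_apply, Fin.append_left]
        rw [h2, aeval_X_left, AlgHom.id_apply]
    exact DFunLike.congr_fun h1 Φ
  rw [hG0] at hr
  obtain ⟨f, hf⟩ : ∃ f, f = aeval (Fin.append (X : Fin n → MvPolynomial (Fin n) K)
    fun i => C (c i)⁻¹ * p i) Φ := ⟨_, rfl⟩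
  rw [← hf] at hr ⊢
  -- the first automorphism
  obtain ⟨φ1, h1⟩ : ∃ φ : MvPolynomial (Fin (n + (κ + κ))) K →ₐ[K]
      MvPolynomial (Fin (n + (κ + κ))) K, φ = sub3 (fun i => X (xv κ i))
      (fun i => X (yv n i) + rename emb (r i)) (fun i => X (zv n i)) := ⟨_, rfl⟩
  obtain ⟨φ1', h1'⟩ : ∃ φ : MvPolynomial (Fin (n + (κ + κ))) K →ₐ[K]
      MvPolynomial (Fin (n + (κ + κ))) K, φ = sub3 (fun i => X (xv κ i))
      (fun i => X (yv n i) - rename emb (r i)) (fun i => X (zv n i)) := ⟨_, rfl⟩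
  have e1 : ∀ g : MvPolynomial (Fin (n + κ)) K, φ1 (rename emb g) = rename emb g := by
    intro g
    apply fix_rename
    refine Fin.addCases (fun i => ?_) (fun i => ?_)
    · rw [emb_l, h1, sub3_x]
    · rw [emb_r, h1, sub3_z]
  have e1' : ∀ g : MvPolynomial (Fin (n + κ)) K, φ1' (rename emb g) = rename emb g := by
    intro g
    apply fix_rename
    refine Fin.addCases (fun i => ?_) (fun i => ?_)
    · rw [emb_l, h1', sub3_x]
    · rw [emb_r, h1', sub3_z]
  have x1 : ∀ i, φ1 (X (xv κ i)) = X (xv κ i) := fun i => by rw [h1, sub3_x]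
  have y1 : ∀ i, φ1 (X (yv n i)) = X (yv n i) + rename emb (r i) := fun i => by rw [h1, sub3_y]
  have z1 : ∀ i, φ1 (X (zv n i)) = X (zv n i) := fun i => by rw [h1, sub3_z]
  have x1' : ∀ i, φ1' (X (xv κ i)) = X (xv κ i) := fun i => by rw [h1', sub3_x]
  have y1' : ∀ i, φ1' (X (yv n i)) = X (yv n i) - rename emb (r i) :=
    fun i => by rw [h1', sub3_y]
  have z1' : ∀ i, φ1' (X (zv n i)) = X (zv n i) := fun i => by rw [h1', sub3_z]
  -- the second automorphism
  obtain ⟨φ2, h2⟩ : ∃ φ : MvPolynomial (Fin (n + (κ + κ))) K →ₐ[K]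
      MvPolynomial (Fin (n + (κ + κ))) K, φ = sub3 (fun i => X (xv κ i))
      (fun i => X (yv n i)) (fun i => C (c i) * X (zv n i) - rename (xv κ) (p i)) := ⟨_, rfl⟩
  obtain ⟨φ2', h2'⟩ : ∃ φ : MvPolynomial (Fin (n + (κ + κ))) K →ₐ[K]
      MvPolynomial (Fin (n + (κ + κ))) K, φ = sub3 (fun i => X (xv κ i))
      (fun i => X (yv n i)) (fun i => C (c i)⁻¹ * (X (zv n i) + rename (xv κ) (p i))) :=
    ⟨_, rfl⟩
  have x2 : ∀ i, φ2 (X (xv κ i)) = X (xv κ i) := fun i => by rw [h2, sub3_x]
  have y2 : ∀ i, φ2 (X (yv n i)) = X (yv n i) := fun i => by rw [h2, sub3_y]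
  have z2 : ∀ i, φ2 (X (zv n i)) = C (c i) * X (zv n i) - rename (xv κ) (p i) :=
    fun i => by rw [h2, sub3_z]
  have x2' : ∀ i, φ2' (X (xv κ i)) = X (xv κ i) := fun i => by rw [h2', sub3_x]
  have y2' : ∀ i, φ2' (X (yv n i)) = X (yv n i) := fun i => by rw [h2', sub3_y]
  have z2' : ∀ i, φ2' (X (zv n i)) = C (c i)⁻¹ * (X (zv n i) + rename (xv κ) (p i)) :=
    fun i => by rw [h2', sub3_z]
  have e2 : ∀ g : MvPolynomial (Fin n) K, φ2 (rename (xv κ) g) = rename (xv κ) g :=
    fun g => fix_rename _ _ x2 g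
  have e2' : ∀ g : MvPolynomial (Fin n) K, φ2' (rename (xv κ) g) = rename (xv κ) g :=
    fun g => fix_rename _ _ x2' g
  have cc : ∀ i, (C (c i) * C (c i)⁻¹ : MvPolynomial (Fin (n + (κ + κ))) K) = 1 := by
    intro i
    rw [← C_mul, mul_inv_cancel₀ (hc i), C_1]
  let ψ1 : MvPolynomial (Fin (n + (κ + κ))) K ≃ₐ[K] MvPolynomial (Fin (n + (κ + κ))) K :=
    AlgEquiv.ofAlgHom φ1 φ1' (by
      apply ext3
      · intro i
        rw [AlgHom.comp_apply, AlgHom.id_apply, x1', x1]
      · intro i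
        rw [AlgHom.comp_apply, AlgHom.id_apply, y1', map_sub, y1, e1, add_sub_cancel_right]
      · intro i
        rw [AlgHom.comp_apply, AlgHom.id_apply, z1', z1]) (by
      apply ext3
      · intro i
        rw [AlgHom.comp_apply, AlgHom.id_apply, x1, x1']
      · intro i
        rw [AlgHom.comp_apply, AlgHom.id_apply, y1, map_add, y1', e1', sub_add_cancel]
      · intro i
        rw [AlgHom.comp_apply, AlgHom.id_apply, z1, z1'])
  let ψ2 : MvPolynomial (Fin (n + (κ + κ))) K ≃ₐ[K] MvPolynomial (Fin (n + (κ + κ))) K :=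
    AlgEquiv.ofAlgHom φ2 φ2' (by
      apply ext3
      · intro i
        rw [AlgHom.comp_apply, AlgHom.id_apply, x2', x2]
      · intro i
        rw [AlgHom.comp_apply, AlgHom.id_apply, y2', y2]
      · intro i
        rw [AlgHom.comp_apply, AlgHom.id_apply, z2', map_mul, map_add, z2, e2, algHom_C,
          algebraMap_eq]
        linear_combination (X (zv n i)) * cc i) (by
      apply ext3
      · intro i
        rw [AlgHom.comp_apply, AlgHom.id_apply, x2, x2']
      · intro i
        rw [AlgHom.comp_apply, AlgHom.id_apply, y2, y2']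
      · intro i
        rw [AlgHom.comp_apply, AlgHom.id_apply, z2, map_sub, map_mul, z2', e2', algHom_C,
          algebraMap_eq]
        linear_combination (X (zv n i) + rename (xv κ) (p i)) * cc i)
  have hxe : ∀ g : MvPolynomial (Fin n) K,
      rename emb (rename (Fin.castAdd κ) g) = rename (xv κ) g := by
    intro g
    rw [rename_rename]
    congr 2
    funext i
    exact emb_l i
  have hφ2G : φ2 (rename emb G) = rename emb Φ := by
    rw [hG]
    have h3 : (φ2.comp (rename emb)).comp (aeval (Fin.append (fun i => X (Fin.castAdd κ i))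
        (fun i => C (c i)⁻¹ * (X (Fin.natAdd n i) + rename (Fin.castAdd κ) (p i)))) :
          MvPolynomial (Fin (n + κ)) K →ₐ[K] MvPolynomial (Fin (n + κ)) K) = rename emb := by
      apply MvPolynomial.algHom_ext
      refine Fin.addCases (fun i => ?_) (fun i => ?_)
      · rw [AlgHom.comp_apply, AlgHom.comp_apply, aeval_X, Fin.append_left, rename_X, emb_l, x2]
      · rw [AlgHom.comp_apply, AlgHom.comp_apply, aeval_X, Fin.append_right, rename_X, emb_r,
          map_mul, map_add, rename_X, emb_r, rename_C, hxe, map_mul, map_add, z2, e2, algHom_C,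
          algebraMap_eq]
        linear_combination (X (zv n i)) * cc i
    exact DFunLike.congr_fun h3 Φ
  refine ⟨ψ1.trans ψ2, ?_⟩
  show φ2 (φ1 (rename (xv κ) f + ∑ i : Fin κ, X (yv n i) * X (zv n i))) =
    rename emb Φ + ∑ i : Fin κ, X (yv n i) * (C (c i) * X (zv n i) - rename (xv κ) (p i))
  have h4 : φ1 (rename (xv κ) f + ∑ i : Fin κ, X (yv n i) * X (zv n i)) =
      rename emb G + ∑ i : Fin κ, X (yv n i) * X (zv n i) := by
    rw [map_add, ← hxe f, e1, map_sum]
    conv_rhs => rw [hr]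
    rw [map_add, map_sum, add_assoc, ← Finset.sum_add_distrib]
    congr 1
    refine Finset.sum_congr rfl fun i _ => ?_
    rw [map_mul, map_mul, y1, z1, rename_X, emb_r]
    ring
  rw [h4, map_add, hφ2G, map_sum]
  congr 1
  refine Finset.sum_congr rfl fun i _ => ?_
  rw [map_mul, y2, z2]

end Pool.Agent.Y925.MS
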